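import Pool.Agent.TH216.ND.Nd1
import Pool.Agent.TH216.HDN
import Pool.Agent.TH216.MF.MotL
import Pool.Agent.W425.MM.Fin

set_option autoImplicit false

/-! Nondegenerate polynomials: simplices or B1-facets, weak form. -/

namespace Pool.Agent.TH216.ND

open MvPolynomial Pool.Agent.H628R4.TP Pool.Agent.W425.MM
open Pool.Agent.W425.ND (spa Nondeg prodb prodb_eval parts)
open Pool.Agent.W426.SM (gord IsRay face)
open Pool.Agent.W803.SM (gord_le exists_gord)
open Pool.Agent.W425.BF (B1)
open Pool.Agent.W425.SV (RelV Kil1)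
open Pool.Agent.W425.SG (UnitEq)
open Pool.Agent.TH216.HD hiding IsRay
open Pool.Agent.TH216.MF (RelG KilU KRelJ RecJ recJ_gen krelJ_phi aJ_phi InC inC_self HypS hypS_of
  SimR)
open Pool.Agent.TH216.MC (HB both pos_of_ray)
open Pool.Agent.W428.MOT (Pt Constr ratRing sp LuMu InRat zetaE)
open Pool.Agent.W375.MG (zetaG Good)

variable {r N : ℕ}

open Classical in
/-- the kept exponents -/
noncomputable def Kp (v : Fin r → Fin N → ℕ) (V : Finset (Fin r)) : Finset (Fin r) :=
  Finset.univ.filter fun j => j ∈ V ∨ ¬ HullV v V j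

lemma mem_Kp (v : Fin r → Fin N → ℕ) (V : Finset (Fin r)) (j : Fin r) :
    j ∈ Kp v V ↔ j ∈ V ∨ ¬ HullV v V j := by
  unfold Kp
  simp

/-- the enumeration of the kept exponents -/
noncomputable def iK (v : Fin r → Fin N → ℕ) (V : Finset (Fin r)) :
    Fin (Kp v V).card → Fin r := fun i => ((Kp v V).equivFin.symm i).1

lemma iK_mem (v : Fin r → Fin N → ℕ) (V : Finset (Fin r)) (i : Fin (Kp v V).card) :
    iK v V i ∈ Kp v V := ((Kp v V).equivFin.symm i).2

lemma iK_inj (v : Fin r → Fin N → ℕ) (V : Finset (Fin r)) : Function.Injective (iK v V) :=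
  fun i i' h => (Kp v V).equivFin.symm.injective (Subtype.ext h)

lemma iK_surj (v : Fin r → Fin N → ℕ) (V : Finset (Fin r)) {j : Fin r} (hj : j ∈ Kp v V) :
    ∃ i, iK v V i = j := ⟨(Kp v V).equivFin ⟨j, hj⟩, by
  unfold iK
  rw [Equiv.symm_apply_apply]⟩

/-- the kept exponents -/
noncomputable def vK (v : Fin r → Fin N → ℕ) (V : Finset (Fin r)) :
    Fin (Kp v V).card → Fin N → ℕ := fun i => v (iK v V i)

lemma hull_of_out (v : Fin r → Fin N → ℕ) (V : Finset (Fin r)) (j : Fin r)
    (hj : HullV v V j) : InC (vK v V) Finset.univ (v j) := by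
  classical
  obtain ⟨l, h1, h2, h3, h4⟩ := hj
  have hsum : ∀ f : Fin r → ℝ, ∑ i, l (iK v V i) * f (iK v V i) = ∑ k, l k * f k := by
    intro f
    rw [← Finset.sum_image (s := Finset.univ) (g := iK v V) (f := fun k => l k * f k)
      (fun i _ i' _ h => iK_inj v V h)]
    refine Finset.sum_subset (Finset.subset_univ _) fun k _ hk => ?_
    have h5 : k ∉ V := by
      intro h6
      obtain ⟨i, hi⟩ := iK_surj v V ((mem_Kp v V k).2 (Or.inl h6))
      exact hk (Finset.mem_image.2 ⟨i, Finset.mem_univ _, hi⟩)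
    rw [h2 k h5, zero_mul]
  refine ⟨fun i => l (iK v V i), fun i => h1 _, fun i hi => absurd (Finset.mem_univ i) hi, ?_,
    fun x => ?_⟩
  · have h5 := hsum fun _ => 1
    simp only [mul_one] at h5
    rw [h5, h3]
  · have h5 := hsum fun k => (v k x : ℝ)
    rw [← h4 x, ← h5]
    rfl

lemma inC_all (v : Fin r → Fin N → ℕ) (V : Finset (Fin r)) (j : Fin r) :
    InC (vK v V) Finset.univ (v j) := by
  by_cases hj : j ∈ Kp v V
  · obtain ⟨i, hi⟩ := iK_surj v V hj
    rw [← hi]
    exact inC_self (vK v V) _ i (Finset.mem_univ _)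
  · rw [mem_Kp] at hj
    push Not at hj
    exact hull_of_out v V j hj.2

lemma out_hull (v : Fin r → Fin N → ℕ) (V : Finset (Fin r)) (j : Fin r)
    (_ : ∀ i, iK v V i ≠ j) : InC (vK v V) Finset.univ (v j) := inC_all v V j

/-- the faces through a point of the polyhedron -/
lemma face_of_low (v : Fin r → Fin N → ℕ) (V : Finset (Fin r)) (j : Fin r) (l : Fin r → ℝ)
    (hl : ∀ k, 0 ≤ l k) (hl1 : ∑ k, l k = 1)
    (hlw : ∀ i, ∑ k, l k * (v k i : ℝ) ≤ (v j i : ℝ)) (a : Fin N → ℕ) (hf : OnFace v a j)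
    (k : Fin r) (hk : 0 < l k) : OnFace v a k := by
  by_contra hne
  have hne' : ∑ i, a i * v k i ≠ gord v a := hne
  have h1 : (gord v a : ℝ) < ∑ j, l j * ((∑ i, a i * v j i : ℕ) : ℝ) := by
    calc (gord v a : ℝ) = ∑ j, l j * (gord v a : ℝ) := by rw [← Finset.sum_mul, hl1, one_mul]
      _ < _ := by
        refine Finset.sum_lt_sum (fun j _ =>
          mul_le_mul_of_nonneg_left (by exact_mod_cast gord_le v a j) (hl j))
          ⟨k, Finset.mem_univ k, ?_⟩
        refine mul_lt_mul_of_pos_left ?_ hk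
        exact_mod_cast lt_of_le_of_ne (gord_le v a k) (Ne.symm hne')
  have h2 : ∑ j, l j * ((∑ i, a i * v j i : ℕ) : ℝ) ≤ ((∑ i, a i * v j i : ℕ) : ℝ) := by
    push_cast
    simp only [Finset.mul_sum]
    rw [Finset.sum_comm]
    refine Finset.sum_le_sum fun i _ => ?_
    have h3 : ∑ j, l j * ((a i : ℝ) * (v j i : ℝ)) = (a i : ℝ) * ∑ j, l j * (v j i : ℝ) := by
      rw [Finset.mul_sum]
      exact Finset.sum_congr rfl fun j _ => by ring
    rw [h3]
    exact mul_le_mul_of_nonneg_left (hlw i) (by positivity)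
  have hf' : ∑ i, a i * v j i = gord v a := hf
  rw [hf'] at h2
  linarith

theorem gord_vK (hr : 0 < r) (v : Fin r → Fin N → ℕ) (V : Finset (Fin r)) (hV : Spans v V)
    (a : Fin N → ℕ) : 0 < (Kp v V).card ∧ gord (vK v V) a = gord v a := by
  classical
  have hne : Nonempty (Fin r) := ⟨⟨0, hr⟩⟩
  obtain ⟨j, hj⟩ : ∃ j, face v a j :=
    Nat.sInf_mem (Set.range_nonempty fun j : Fin r => ∑ i, a i * v j i)
  obtain ⟨l, h1, h2, h3, h4⟩ := hV j
  obtain ⟨k, hk⟩ : ∃ k, 0 < l k := by
    by_contra hcon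
    push Not at hcon
    have : ∑ j, l j = 0 := Finset.sum_eq_zero fun j _ => le_antisymm (hcon j) (h1 j)
    rw [this] at h3
    exact zero_ne_one h3
  have hkV : k ∈ V := by
    by_contra h5
    exact hk.ne' (h2 k h5)
  have hfk := face_of_low v V j l h1 h3 h4 a hj k hk
  obtain ⟨i0, hi0⟩ := iK_surj v V ((mem_Kp v V k).2 (Or.inl hkV))
  have hpos : 0 < (Kp v V).card := lt_of_le_of_lt (Nat.zero_le _) i0.2
  refine ⟨hpos, le_antisymm ?_ ?_⟩
  · have h5 := gord_le (vK v V) a i0
    have h6 : ∑ i, a i * vK v V i0 i = gord v a := by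
      unfold vK
      rw [hi0]
      exact hfk
    rw [h6] at h5
    exact h5
  · have hne' : Nonempty (Fin (Kp v V).card) := ⟨i0⟩
    obtain ⟨i, hi⟩ : ∃ j, face (vK v V) a j :=
      Nat.sInf_mem (Set.range_nonempty fun j : Fin (Kp v V).card => ∑ i, a i * vK v V j i)
    have h5 : ∑ x, a x * vK v V i x = gord (vK v V) a := hi
    rw [← h5]
    exact gord_le v a (iK v V i)

/-- from the condition on the facets to the criterion -/
theorem hypS_of_locV (hr : 0 < r) (v : Fin r → Fin N → ℕ) (V : Finset (Fin r))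
    (hV : Spans v V) (σ : ℚ) (hL : LocV v V σ) : HypS (vK v V) (σ : ℝ) := by
  classical
  have hcard := (gord_vK hr v V hV 0).1
  have hg := fun a => (gord_vK hr v V hV a).2
  refine hypS_of hcard _ _ ?_
  have hray : ∀ a, IsRay (vK v V) a → IsRay v a := by
    intro a ha
    refine ⟨ha.1, fun u hu hf => ha.2 u hu fun i i' hi hi' => ?_⟩
    have h1 : face v a (iK v V i) := by
      unfold face at hi ⊢
      rw [hg] at hi
      exact hi
    have h2 : face v a (iK v V i') := by
      unfold face at hi' ⊢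
      rw [hg] at hi'
      exact hi'
    exact hf _ _ h1 h2
  have hface : ∀ a i, face (vK v V) a i ↔ OnFace v a (iK v V i) := by
    intro a i
    unfold face
    rw [hg]
    rfl
  -- the main case
  have main : ∀ j1 ∈ V, ∃ i, ∀ a : Fin N → ℕ, IsRay (vK v V) a → 0 < gord (vK v V) a →
      OnFace v a j1 → ((∑ i, a i : ℕ) : ℝ) / gord (vK v V) a = (σ : ℝ) →
      SimR (vK v V) a ∨ B1 (vK v V) i a := by
    intro j1 hj1
    obtain ⟨i, hi⟩ := hL j1 hj1
    refine ⟨i, fun a ha hg' hf hs => ?_⟩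
    rw [hg] at hg' hs
    have hs' : lev v a = σ := by
      unfold lev
      apply Rat.cast_injective (α := ℝ)
      push_cast
      push_cast at hs
      exact hs
    rcases hi a (hray a ha) hg' hf hs' with ⟨h1, h2⟩ | ⟨hai, j0, hf0, hv1, hu⟩
    · left
      intro w hw1 hw2
      set W : Fin r → ℚ := fun j => if hj : ∃ x, iK v V x = j then w hj.choose else 0 with hW
      have hWi : ∀ x, W (iK v V x) = w x := by
        intro x
        have h5 : ∃ x', iK v V x' = iK v V x := ⟨x, rfl⟩
        rw [hW]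
        simp only
        rw [dif_pos h5, iK_inj v V h5.choose_spec]
      have h4 := h1 W (fun j hj => by
        by_cases hx : ∃ x, iK v V x = j
        · obtain ⟨x, rfl⟩ := hx
          rw [hWi]
          by_contra hne
          have hfx : face (vK v V) a x := by
            by_contra h6
            exact hne (hw1 x h6)
          have h7 := (hface a x).1 hfx
          refine hj ⟨?_, h7⟩
          rcases (mem_Kp v V _).1 (iK_mem v V x) with h8 | h8
          · exact h8
          · exact absurd (h2 _ h7) h8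
        · rw [hW]
          simp only
          rw [dif_neg hx]) (fun i hi => by
          have h5 := hw2 i hi
          have h6 : ∑ j, W j * (v j i : ℚ) = ∑ x, w x * (vK v V x i : ℚ) := by
            have h7 : ∑ x, w x * (vK v V x i : ℚ) =
                ∑ j ∈ Finset.univ.image (iK v V), W j * (v j i : ℚ) := by
              rw [Finset.sum_image (fun i _ i' _ h => iK_inj v V h)]
              refine Finset.sum_congr rfl fun x _ => ?_
              rw [hWi]
              rfl
            rw [h7]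
            symm
            refine Finset.sum_subset (Finset.subset_univ _) fun j _ hj => ?_
            have h8 : ¬ ∃ x, iK v V x = j := by
              rintro ⟨x, rfl⟩
              exact hj (Finset.mem_image_of_mem _ (Finset.mem_univ _))
            rw [hW]
            simp only
            rw [dif_neg h8, zero_mul]
          rw [h6]
          exact h5)
      intro x
      rw [← hWi]
      exact h4 _
    · right
      have hj0 : j0 ∈ Kp v V := by
        rw [mem_Kp]
        by_contra hcon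
        push Not at hcon
        obtain ⟨hn, l, h1, h2, h3, h4⟩ := hcon
        have h5 : ∑ k, l k * (v k i : ℝ) = 0 := by
          refine Finset.sum_eq_zero fun k _ => ?_
          by_cases hk : l k = 0
          · rw [hk, zero_mul]
          · have h6 := face_of_low v V j0 l h1 h3 (fun i => (h4 i).le) a hf0 k
              (lt_of_le_of_ne (h1 k) (Ne.symm hk))
            have h7 : k ≠ j0 := by
              rintro rfl
              exact hk (h2 k hn)
            rw [hu k h6 h7]
            simp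
        rw [h4 i, hv1] at h5
        norm_num at h5
      obtain ⟨x0, hx0⟩ := iK_surj v V hj0
      refine ⟨hai, x0, ?_, ?_, fun x hx hxn => ?_⟩
      · rw [hface, hx0]
        exact hf0
      · unfold vK
        rw [hx0, hv1]
      · unfold vK
        refine hu _ ((hface a x).1 hx) fun h5 => hxn (iK_inj v V ?_)
        rw [h5, hx0]
  intro x1
  rcases (mem_Kp v V _).1 (iK_mem v V x1) with h5 | h5
  · obtain ⟨i, hi⟩ := main _ h5
    exact ⟨i, fun a ha hg' hf hs => hi a ha hg' ((hface a x1).1 hf) hs⟩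
  · obtain ⟨l, h1, h2, h3, h4⟩ := hV (iK v V x1)
    obtain ⟨k, hk⟩ : ∃ k, 0 < l k := by
      by_contra hcon
      push Not at hcon
      have : ∑ j, l j = 0 := Finset.sum_eq_zero fun j _ => le_antisymm (hcon j) (h1 j)
      rw [this] at h3
      exact zero_ne_one h3
    have hkV : k ∈ V := by
      by_contra h5
      exact hk.ne' (h2 k h5)
    obtain ⟨i, hi⟩ := main k hkV
    exact ⟨i, fun a ha hg' hf hs =>
      hi a ha hg' (face_of_low v V _ l h1 h3 h4 a ((hface a x1).1 hf) k hk) hs⟩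

/-- the bad levels for nondegenerate polynomials -/
theorem hb_nd (hr : 0 < r) (v : Fin r → Fin N → ℕ) (hv : Function.Injective v)
    (V : Finset (Fin r)) (hV : Spans v V) (P : ℚ → Prop)
    (hP : ∀ α, ¬ P α → ∃ (θ : Fin (Kp v V).card → ℤ) (p : Polynomial ℂ),
      RelG (vK v V) (Kil1 (vK v V)) (KilU (vK v V) θ) p ∧ p.eval (α : ℂ) ≠ 0) :
    HB v fun σ => LocV v V σ ∧ ¬ P (-σ) := by
  classical
  have hcard := (gord_vK hr v V hV 0).1
  rintro J q hq e he T0 hT0 σ ⟨hL, hPσ⟩ hlog
  obtain ⟨θ, p, hrel, hp⟩ := hP _ hPσ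
  have hma : ∀ j', ∃ j, v j = vK v V j' := fun j' => ⟨iK v V j', rfl⟩
  have hmb : ∀ j, InC (vK v V) Finset.univ (v j) := inC_all v V
  have he' := krelJ_phi v (vK v V) hv hma q J e he
  have h1 : ((-Real.log ‖T0‖ / Real.log q : ℝ) : ℂ) = ((-σ : ℚ) : ℂ) := by
    rw [neg_div, hlog]
    push_cast
    rfl
  obtain ⟨Q, hQ, hrec⟩ := recJ_gen q hq (vK v V) p θ hrel J _ he' T0 hT0
    (by rw [h1]; exact hp) (by rw [hlog]; exact hypS_of_locV hr v V hV σ hL)
  refine ⟨Q, hQ, ?_⟩
  filter_upwards [hrec] with t ht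
  rw [← ht]
  refine Finset.sum_congr rfl fun m _ => ?_
  rw [aJ_phi v (vK v V) hr hcard hma hmb]

/-- the condition on `α` -/
def PW (loc : Prop) (f : MvPolynomial (Fin N) ℂ) (α : ℚ) : Prop :=
  ∀ b : Polynomial ℂ, b.eval (-1) = 0 → UnitEq loc f b → ∃ i : ℤ, b.eval ((α : ℂ) - i) = 0

theorem rel_nd (hr : 0 < r) (loc : Prop) (v : Fin r → Fin N → ℕ) (hv : Function.Injective v)
    (a : Fin r → ℂ) (hnd : Nondeg v a) (V : Finset (Fin r)) (α : ℚ)
    (hα : ¬ PW loc (spa v a) α) :
    ∃ (θ : Fin (Kp v V).card → ℤ) (p : Polynomial ℂ),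
      RelG (vK v V) (Kil1 (vK v V)) (KilU (vK v V) θ) p ∧ p.eval (α : ℂ) ≠ 0 := by
  have hne : NeZero r := ⟨by omega⟩
  unfold PW at hα
  push Not at hα
  obtain ⟨b, hb1, hb, hroot⟩ := hα
  obtain ⟨K, hK⟩ := relAll parts loc v a hv hnd b hb
  obtain ⟨θ, hθ⟩ := relG_restr v (vK v V) (iK v V) (iK_inj v V) (fun i => rfl)
    (fun j hj => out_hull v V j hj) loc (prodb b K) hK
  refine ⟨θ, prodb b K, hθ, ?_⟩
  rw [prodb_eval, Finset.prod_ne_zero_iff]
  intro i _
  exact_mod_cast hroot (i : ℤ)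

/-- **Nondegenerate polynomials.** -/
theorem nd_mot {k : Type} [Field k] [Algebra k ℂ] (hr : 0 < r) (loc : Prop)
    (v : Fin r → Fin N → ℕ) (hv : Function.Injective v) (c : Fin r → k) (hc : ∀ j, c j ≠ 0)
    (hnd : Nondegenerate v (fun j => algebraMap k ℂ (c j))) (V : Finset (Fin r))
    (hV : Spans v V) (hL : HypV loc v V) :
    ∃ S : Finset (ℤ × ℤ),
      (∀ p ∈ S, p.1 < 0 ∧ 0 < p.2 ∧ ∀ b : Polynomial ℂ, b.eval (-1) = 0 →
        UnitEq loc (spa v (fun j => algebraMap k ℂ (c j))) b →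
          ∃ i : ℤ, b.eval ((p.1 : ℂ) / p.2 - i) = 0) ∧
      (∀ (K : Type) [Field K] [Algebra k K] (W : Set (Pt K (Fin N)))
        (E : Set (AlgebraicClosure K)), Constr W → Good E →
        zetaG (spa v (fun j => algebraMap k K (c j))) W E ∈ ratRing K S) ∧
      InRat (LuMu (spa v c)) S (zetaE (spa v c)) := by
  classical
  have hne : NeZero r := ⟨by omega⟩
  have hkc : CharZero k := RingHom.charZero (algebraMap k ℂ)
  have hnd' : Nondeg v (fun j => algebraMap k ℂ (c j)) := hnd
  set P : ℚ → Prop := PW loc (spa v (fun j => algebraMap k ℂ (c j))) with hPdef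
  obtain ⟨S, hS, hz1, hz2⟩ := both v hr _ (hb_nd hr v hv V hV P
    (fun α hα => rel_nd hr loc v hv _ hnd' V α hα))
  have hspa : ∀ {K : Type} [Field K] (c' : Fin r → K), spa v c' = sp 0 v c' 1 := by
    intro K _ c'
    unfold sp spa
    simp
  refine ⟨S, fun p hp => ?_, ?_, ?_⟩
  · rcases hS p hp with rfl | ⟨a, ha, hg, hn, rfl⟩
    · refine ⟨by norm_num, by norm_num, fun b hb _ => ⟨0, ?_⟩⟩
      have h1 : (((-1 : ℤ) : ℂ) / ((1 : ℤ) : ℂ) - ((0 : ℤ) : ℂ)) = -1 := by
        push_cast
        ring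
      rw [h1, hb]
    · refine ⟨pos_of_ray ha, Int.natCast_pos.2 hg, fun b hb hU => ?_⟩
      have hgC : ((gord v a : ℕ) : ℂ) ≠ 0 := by exact_mod_cast hg.ne'
      rcases hL a ha hg with ⟨t, ht⟩ | ⟨a', hg', hN, z, hz⟩ | hloc
      · have ht' : ∑ i, a i = gord v a * t := ht
        refine ⟨-(t : ℤ) + 1, ?_⟩
        have h1 : ((-((∑ i, a i : ℕ) : ℤ) : ℤ) : ℂ) / ((gord v a : ℤ) : ℂ) -
            ((-(t : ℤ) + 1 : ℤ) : ℂ) = -1 := by
          rw [ht']
          push_cast
          field_simp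
          ring
        rw [h1, hb]
      · obtain ⟨K, hK⟩ := relAll parts loc v _ hv hnd' b hU
        have h1 := a5 v loc (prodb b K) hK a' hg' hN
        rw [prodb_eval, Finset.prod_eq_zero_iff] at h1
        obtain ⟨i, -, hi⟩ := h1
        refine ⟨(i : ℤ) - z, ?_⟩
        have h2 : ((∑ i, a i : ℕ) : ℂ) / gord v a = ((∑ i, a' i : ℕ) : ℂ) / gord v a' + z := by
          have := congrArg (fun q : ℚ => (q : ℂ)) hz
          unfold lev at this
          push_cast at this ⊢
          exact this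
        have h3 : ((-((∑ i, a i : ℕ) : ℤ) : ℤ) : ℂ) / ((gord v a : ℤ) : ℂ) -
            (((i : ℤ) - z : ℤ) : ℂ) = -(((∑ i, a' i : ℕ) : ℂ) / gord v a') - i := by
          push_cast at h2 ⊢
          rw [neg_div, h2]
          ring
        rw [h3]
        exact hi
      · have h1 : P (-(((∑ i, a i : ℕ) : ℚ) / gord v a)) := by
          by_contra hcon
          exact hn ⟨hloc, hcon⟩
        obtain ⟨i, hi⟩ := h1 b hb hU
        refine ⟨i, ?_⟩
        have e : ((-((∑ i, a i : ℕ) : ℤ) : ℤ) : ℂ) / ((gord v a : ℤ) : ℂ) =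
            ((-(((∑ i, a i : ℕ) : ℚ) / gord v a) : ℚ) : ℂ) := by
          push_cast
          ring
        rw [e]
        exact hi
  · intro K _ _ W E hW hE
    have hK : CharZero K := charZero_of_injective_algebraMap (algebraMap k K).injective
    rw [hspa]
    exact hz1 K _ (nonG_of Pool.Agent.W67.MM.taskB1 k K v c hr hnd')
      (fun j => (map_ne_zero _).2 (hc j)) W E hW hE
  · rw [hspa]
    have h1 := nonG_of Pool.Agent.W67.MM.taskB1 k k v c hr hnd'
    exact hz2 k c h1 hc

end Pool.Agent.TH216.ND
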