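import Pool.Agent.TH216.ND.Nd4

set_option autoImplicit false

/-! Nondegenerate ideals at the origin, weak form: conditions on the `v j`, `j ∈ V`, only. -/

namespace Pool.Agent.TH216.ND

open MvPolynomial Pool.Agent.W425.MM
open Pool.Agent.W428.MOT Pool.Agent.W749.JI
open Pool.Agent.W425.ND (spa Nondeg prodb prodb_eval parts)
open Pool.Agent.W425.SG (UnitEq)
open Pool.Agent.W375.MG (zetaG Good good_one)
open Pool.Agent.W426.SM (gord face)
open Pool.Agent.W425.SV (Kil1)
open Pool.Agent.TH216.MF (RelG KilU)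
open Pool.Agent.TH216.MC (pos_of_ray)
open Pool.Agent.TH216.HD
open Pool.Agent.TH216.HDNL
open Pool.Agent.TH216.ID (PWI fin_W Dx Dy mem_Dy cay_inj yok_cay constr_W0 W0_Dx zetaI_mem gp_eq)
open Pool.Agent.W423.NI (NondegI)

variable {r n : ℕ}

/-- for the exponents of an ideal the `y`-coordinates agree automatically -/
lemma spansD_cay {ℓ : ℕ} (π : Fin ℓ → Fin r) (m : Fin ℓ → Fin n → ℕ) (V : Finset (Fin ℓ))
    (hV : Spans (cay π m) V) : SpansD (cay π m) V (Dx n r) := by
  classical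
  intro j
  obtain ⟨l, h1, h2, h3, h4⟩ := hV j
  refine ⟨l, h1, h2, h3, h4, fun x hx => ?_⟩
  have hx' : ∃ y : Fin r, Fin.natAdd n y = x := by
    revert hx
    refine Fin.addCases (fun x => ?_) (fun x => ?_) x
    · intro hx
      exact absurd (Finset.mem_map.2 ⟨x, Finset.mem_univ _, rfl⟩) hx
    · intro _
      exact ⟨x, rfl⟩
  obtain ⟨y, rfl⟩ := hx'
  have h5 : ∀ y : Fin r, ∑ k, l k * (cay π m k (Fin.natAdd n y) : ℝ) ≤
      (cay π m j (Fin.natAdd n y) : ℝ) := fun y => h4 _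
  have h6 : ∑ y : Fin r, ∑ k, l k * (cay π m k (Fin.natAdd n y) : ℝ) = 1 := by
    rw [Finset.sum_comm, ← h3]
    refine Finset.sum_congr rfl fun k _ => ?_
    rw [← Finset.mul_sum]
    simp only [RootG.cay_right]
    simp
  have h7 : ∑ y : Fin r, (cay π m j (Fin.natAdd n y) : ℝ) = 1 := by
    simp only [RootG.cay_right]
    simp
  by_contra hne
  have h8 : ∑ y : Fin r, ∑ k, l k * (cay π m k (Fin.natAdd n y) : ℝ) <
      ∑ y : Fin r, (cay π m j (Fin.natAdd n y) : ℝ) :=
    Finset.sum_lt_sum (fun y _ => h5 y) ⟨y, Finset.mem_univ y, lt_of_le_of_ne (h5 y) hne⟩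
  rw [h6, h7] at h8
  exact lt_irrefl _ h8

/-- all the rays -/
lemma HypVIL_all {k : ℕ} {v : Fin k → Fin (n + r) → ℕ} {V : Finset (Fin k)} (hL : HypVIL v V)
    (a : Fin (n + r) → ℕ) :
    (∃ z : ℤ, lev v a = z) ∨ (∃ a' : Fin (n + r) → ℕ, 0 < ordA v a' ∧ NonB1 v True a' ∧ ∃ z : ℤ,
      lev v a = lev v a' + z) ∨ LocVIL v V (lev v a) := by
  by_cases hex : ∃ a' : Fin (n + r) → ℕ, IsRay v a' ∧ 0 < ordA v a' ∧ lev v a' = lev v a ∧
      ¬ YApexVL v V a'
  · obtain ⟨a', h1, h2, h3, h4⟩ := hex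
    rcases hL a' h1 h2 with h5 | ⟨t, ht⟩ | h5 | h5
    · exact absurd h5 h4
    · left
      refine ⟨t, ?_⟩
      rw [← h3]
      unfold lev
      rw [ht]
      have : ((ordA v a' : ℕ) : ℚ) ≠ 0 := by exact_mod_cast h2.ne'
      push_cast
      field_simp
    · right
      left
      rw [h3] at h5
      exact h5
    · right
      right
      rw [h3] at h5
      exact h5
  · push Not at hex
    refine Or.inr (Or.inr fun j1 _ => Or.inr fun a' h1 h2 _ h4 => Or.inr ?_)
    exact hex a' h1 h2 h4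

/-- **Nondegenerate ideals, at the origin.** -/
theorem nd_idealX {ℓ : ℕ} {k : Type} [Field k] [Algebra k ℂ] (hℓ : 0 < ℓ) (π : Fin ℓ → Fin r)
    (m : Fin ℓ → Fin n → ℕ) (hinj : ∀ j j', π j = π j' → m j = m j' → j = j')
    (c : Fin ℓ → k) (hc : ∀ j, c j ≠ 0)
    (hnd : NondegI π m (fun j => algebraMap k ℂ (c j))) (V : Finset (Fin ℓ))
    (hV : Spans (cay π m) V) (hL : HypVIL (cay π m) V) :
    ∃ S : Finset (ℤ × ℤ),
      (∀ p ∈ S, p.1 < 0 ∧ 0 < p.2 ∧ (p.2 ∣ p.1 ∨ ∀ b : Polynomial ℂ,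
        IsLocalBIdeal (fam π m (fun j => algebraMap k ℂ (c j))) b →
          ∃ i : ℤ, b.eval ((p.1 : ℂ) / p.2 - i) = 0)) ∧
      ∀ (K : Type) [Field K] [Algebra k K],
        zetaI (fam π m (fun j => algebraMap k K (c j))) ∈ ratRing K S := by
  classical
  have hne : NeZero ℓ := ⟨by omega⟩
  have hkc : CharZero k := RingHom.charZero (algebraMap k ℂ)
  have hnd' : Nondeg (cay π m) (fun j => algebraMap k ℂ (c j)) :=
    Pool.Agent.W150.NI.cay π m _ hℓ hnd
  have hv := cay_inj π m hinj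
  set f : MvPolynomial (Fin (n + r)) ℂ := spa (cay π m) (fun j => algebraMap k ℂ (c j)) with hf
  have hU : ∀ b, IsLocalBIdeal (fam π m (fun j => algebraMap k ℂ (c j))) b →
      UnitEq True f ((Polynomial.X + 1) * b) := fun b hb => Pool.Agent.W423.NI.Root.unitEq π m _ b hb
  have hP : ∀ α, ¬ PWI f α → ∃ (θ : Fin V.card → ℤ) (p : Polynomial ℂ),
      RelG (vV (cay π m) V) (Kil1 (vV (cay π m) V)) (KilU (vV (cay π m) V) θ) p ∧
        p.eval (α : ℂ) ≠ 0 := by
    intro α hα
    unfold PWI at hα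
    push Not at hα
    obtain ⟨hint, b, hb, hroot⟩ := hα
    obtain ⟨K, hK⟩ := relAll parts True (cay π m) _ hv hnd' _ hb
    obtain ⟨θ, hθ⟩ := rel_vV (cay π m) V hV True (prodb _ K) hK
    refine ⟨θ, prodb _ K, hθ, ?_⟩
    rw [prodb_eval, Finset.prod_ne_zero_iff]
    intro i _
    rw [Polynomial.eval_mul]
    refine mul_ne_zero ?_ (by exact_mod_cast hroot (i : ℤ))
    intro h0
    apply hint ((i : ℤ) - 1)
    have h1 : ((α - ((i : ℤ) - 1 : ℤ) : ℚ) : ℂ) = ((0 : ℚ) : ℂ) := by
      simp only [Polynomial.eval_add, Polynomial.eval_X, Polynomial.eval_one] at h0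
      push_cast
      linear_combination h0
    have h2 : α - ((i : ℤ) - 1 : ℤ) = 0 := by exact_mod_cast h1
    linarith
  obtain ⟨S, hS, hz1⟩ := fin_W (cay π m) hℓ (fun σ => LocVY (cay π m) V (Dy n r) σ ∧ ¬ PWI f (-σ))
    (Dx n r) (fun J hJ q hq e he T0 hT0 σ hσ hlog => hb_ndX hℓ (cay π m) hv (Dy n r) (Dx n r)
      (yok_cay π m) V (spansD_cay π m V hV) (PWI f) hP J hJ q hq e he T0 hT0 σ hσ hlog)
  have hspa : ∀ {K : Type} [Field K] (c' : Fin ℓ → K), spa (cay π m) c' = sp 0 (cay π m) c' 1 := by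
    intro K _ c'
    unfold sp spa
    simp
  have hLoc : ∀ σ, LocVIL (cay π m) V σ → LocVY (cay π m) V (Dy n r) σ := by
    intro σ h j1 hj1
    refine (h j1 hj1).imp id fun h1 a ha hg hf hs => (h1 a ha hg hf hs).imp id ?_
    rintro ⟨i, hi⟩
    exact ⟨_, (mem_Dy _).2 ⟨i, rfl⟩, hi⟩
  refine ⟨S, fun p hp => ?_, ?_⟩
  · obtain ⟨a, ha, hg, hn, rfl⟩ := hS p hp
    refine ⟨pos_of_ray ha, Int.natCast_pos.2 hg, ?_⟩
    by_cases hdiv : ∃ z : ℤ, lev (cay π m) a = z
    · left
      obtain ⟨z, hz⟩ := hdiv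
      refine ⟨-z, ?_⟩
      have h1 : ((∑ i, a i : ℕ) : ℚ) = z * gord (cay π m) a := by
        have h2 : ((∑ i, a i : ℕ) : ℚ) / gord (cay π m) a = z := hz
        rwa [div_eq_iff (by exact_mod_cast hg.ne')] at h2
      have h2 : ((∑ i, a i : ℕ) : ℤ) = z * gord (cay π m) a := by exact_mod_cast h1
      show -((∑ i, a i : ℕ) : ℤ) = (gord (cay π m) a : ℤ) * -z
      rw [h2]
      ring
    · right
      intro b hb
      have hgC : ((gord (cay π m) a : ℕ) : ℂ) ≠ 0 := by exact_mod_cast hg.ne'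
      rcases HypVIL_all hL a with h1 | ⟨a', hg', hN, z, hz⟩ | hloc
      · exact absurd h1 hdiv
      · obtain ⟨K, hK⟩ := relAll parts True (cay π m) _ hv hnd' _ (hU b hb)
        have h1 := a5 (cay π m) True (prodb _ K) hK a' hg' hN
        rw [prodb_eval, Finset.prod_eq_zero_iff] at h1
        obtain ⟨i, -, hi⟩ := h1
        rw [Polynomial.eval_mul] at hi
        rcases mul_eq_zero.1 hi with hi | hi
        · exfalso
          apply hdiv
          simp only [Polynomial.eval_add, Polynomial.eval_X, Polynomial.eval_one] at hi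
          refine ⟨z + 1 - i, ?_⟩
          have h3 : ((lev (cay π m) a' - (1 - (i : ℚ)) : ℚ) : ℂ) = ((0 : ℚ) : ℂ) := by
            have h4 : ((lev (cay π m) a' : ℚ) : ℂ) = ((∑ i, a' i : ℕ) : ℂ) / gord (cay π m) a' := by
              unfold lev
              push_cast
              rfl
            push_cast at h4 ⊢
            rw [h4]
            push_cast at hi
            linear_combination (-1) * hi
          have h5 : lev (cay π m) a' - (1 - (i : ℚ)) = 0 := by exact_mod_cast h3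
          rw [hz]
          push_cast
          linarith
        · refine ⟨(i : ℤ) - z, ?_⟩
          have h2 : ((∑ i, a i : ℕ) : ℂ) / gord (cay π m) a =
              ((∑ i, a' i : ℕ) : ℂ) / gord (cay π m) a' + z := by
            have := congrArg (fun q : ℚ => (q : ℂ)) hz
            unfold lev at this
            push_cast at this ⊢
            exact this
          have h3 : ((-((∑ i, a i : ℕ) : ℤ) : ℤ) : ℂ) / ((gord (cay π m) a : ℤ) : ℂ) -
              (((i : ℤ) - z : ℤ) : ℂ) = -(((∑ i, a' i : ℕ) : ℂ) / gord (cay π m) a') - i := by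
            push_cast at h2 ⊢
            rw [neg_div, h2]
            ring
          rw [h3]
          exact hi
      · have h1 : PWI f (-(((∑ i, a i : ℕ) : ℚ) / gord (cay π m) a)) := by
          by_contra hcon
          exact hn ⟨hLoc _ hloc, hcon⟩
        rcases h1 with ⟨z, hz⟩ | h1
        · exfalso
          apply hdiv
          refine ⟨-z, ?_⟩
          have h2 : lev (cay π m) a = ((∑ i, a i : ℕ) : ℚ) / gord (cay π m) a := rfl
          rw [h2]
          push_cast at hz ⊢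
          linarith
        · obtain ⟨i, hi⟩ := h1 b (hU b hb)
          refine ⟨i, ?_⟩
          have e : ((-((∑ i, a i : ℕ) : ℤ) : ℤ) : ℂ) / ((gord (cay π m) a : ℤ) : ℂ) =
              ((-(((∑ i, a i : ℕ) : ℚ) / gord (cay π m) a) : ℚ) : ℂ) := by
            push_cast
            ring
          rw [e]
          exact hi
  · intro K _ _
    have hK : CharZero K := charZero_of_injective_algebraMap (algebraMap k K).injective
    refine zetaI_mem _ _ ?_
    rw [gp_eq, hspa]
    exact hz1 K _ (nonG_of Pool.Agent.W67.MM.taskB1 k K (cay π m) c hℓ hnd')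
      (fun j => (map_ne_zero _).2 (hc j)) _ _ constr_W0 good_one (fun z hz => W0_Dx z hz)

end Pool.Agent.TH216.ND
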