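import Pool.Agent.TH216.ND.Nd3
import Pool.Agent.TH216.ND.Nd2
import Pool.Agent.TH216.ID.Nn1
import Pool.Agent.TH216.LX.Lx3
import Pool.Agent.TH216.HDNL

set_option autoImplicit false

/-! Nondegenerate polynomials and ideals at the origin, weak form: conditions on the `v j`, `j ∈ V`,
only. -/

namespace Pool.Agent.TH216.ND

open MvPolynomial Pool.Agent.H628R4.TP Pool.Agent.W425.MM
open Pool.Agent.W425.ND (spa Nondeg prodb prodb_eval parts)
open Pool.Agent.W426.SM (gord IsRay face)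
open Pool.Agent.W803.SM (gord_le exists_gord)
open Pool.Agent.W425.BF (B1)
open Pool.Agent.W425.SV (RelV Kil1)
open Pool.Agent.W425.SG (UnitEq)
open Pool.Agent.TH216.HD hiding IsRay
open Pool.Agent.TH216.HDNL
open Pool.Agent.TH216.MF (RelG KilU KRelJ RecJ krelJ_phi SimR)
open Pool.Agent.TH216.MC (pos_of_ray)
open Pool.Agent.TH216.LX (InN aJ_phiN)
open Pool.Agent.TH216.ID (YOK HypSY hypSY_of recJ_genY fin_W PWI)
open Pool.Agent.W428.MOT (Pt Constr ratRing sp Lu MK)
open Pool.Agent.W375.MG (zetaG Good)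

variable {r N : ℕ}

/-- the enumeration of `V` -/
noncomputable def iV (V : Finset (Fin r)) : Fin V.card → Fin r := fun i => (V.equivFin.symm i).1

lemma iV_mem (V : Finset (Fin r)) (i : Fin V.card) : iV V i ∈ V := (V.equivFin.symm i).2

lemma iV_inj (V : Finset (Fin r)) : Function.Injective (iV V) :=
  fun _ _ h => V.equivFin.symm.injective (Subtype.ext h)

lemma iV_surj (V : Finset (Fin r)) {j : Fin r} (hj : j ∈ V) : ∃ i, iV V i = j :=
  ⟨V.equivFin ⟨j, hj⟩, by
  unfold iV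
  rw [Equiv.symm_apply_apply]⟩

/-- the `v j`, `j ∈ V` -/
noncomputable def vV (v : Fin r → Fin N → ℕ) (V : Finset (Fin r)) :
    Fin V.card → Fin N → ℕ := fun i => v (iV V i)

/-- All the `v j` are above convex combinations of the `v k`, `k ∈ V`, with equality in the
coordinates not in `D`. -/
def SpansD (v : Fin r → Fin N → ℕ) (V : Finset (Fin r)) (D : Finset (Fin N)) : Prop :=
  ∀ j, ∃ l : Fin r → ℝ, (∀ k, 0 ≤ l k) ∧ (∀ k, k ∉ V → l k = 0) ∧ ∑ k, l k = 1 ∧
    (∀ i, ∑ k, l k * (v k i : ℝ) ≤ (v j i : ℝ)) ∧ ∀ i, i ∉ D → ∑ k, l k * (v k i : ℝ) = v j i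

lemma SpansD.spans {v : Fin r → Fin N → ℕ} {V : Finset (Fin r)} {D : Finset (Fin N)}
    (h : SpansD v V D) : Spans v V := fun j => by
  obtain ⟨l, h1, h2, h3, h4, -⟩ := h j
  exact ⟨l, h1, h2, h3, h4⟩

lemma spansD_univ {v : Fin r → Fin N → ℕ} {V : Finset (Fin r)} (h : Spans v V) :
    SpansD v V Finset.univ := fun j => by
  obtain ⟨l, h1, h2, h3, h4⟩ := h j
  exact ⟨l, h1, h2, h3, h4, fun i hi => absurd (Finset.mem_univ i) hi⟩

lemma sum_vV (V : Finset (Fin r)) (l : Fin r → ℝ) (hl : ∀ k, k ∉ V → l k = 0)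
    (f : Fin r → ℝ) : ∑ i, l (iV V i) * f (iV V i) = ∑ k, l k * f k := by
  classical
  rw [← Finset.sum_image (s := Finset.univ) (g := iV V) (f := fun k => l k * f k)
    (fun i _ i' _ h => iV_inj V h)]
  refine Finset.sum_subset (Finset.subset_univ _) fun k _ hk => ?_
  have h5 : k ∉ V := by
    intro h6
    obtain ⟨i, hi⟩ := iV_surj V h6
    exact hk (Finset.mem_image.2 ⟨i, Finset.mem_univ _, hi⟩)
  rw [hl k h5, zero_mul]

lemma inN_vV (v : Fin r → Fin N → ℕ) (V : Finset (Fin r)) (D J : Finset (Fin N))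
    (hV : SpansD v V D) (hJ : D ⊆ J) (j : Fin r) : InN (vV v V) J (v j) := by
  obtain ⟨l, h1, h2, h3, h4, h5⟩ := hV j
  refine ⟨fun i => l (iV V i), fun i => h1 _, ?_, fun x => ?_, fun x hx => ?_⟩
  · have h6 := sum_vV V l h2 fun _ => 1
    simp only [mul_one] at h6
    rw [h6, h3]
  · have h6 := sum_vV V l h2 fun k => (v k x : ℝ)
    have h7 := h4 x
    rw [← h6] at h7
    exact h7
  · have h6 := sum_vV V l h2 fun k => (v k x : ℝ)
    have h7 := h5 x fun h => hx (hJ h)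
    rw [← h6] at h7
    exact h7

lemma pos_wt {l : Fin r → ℝ} (h1 : ∀ k, 0 ≤ l k) (h3 : ∑ k, l k = 1) : ∃ k, 0 < l k := by
  by_contra hcon
  push Not at hcon
  have : ∑ j, l j = 0 := Finset.sum_eq_zero fun j _ => le_antisymm (hcon j) (h1 j)
  rw [this] at h3
  exact zero_ne_one h3

theorem gord_vV (hr : 0 < r) (v : Fin r → Fin N → ℕ) (V : Finset (Fin r)) (hV : Spans v V)
    (a : Fin N → ℕ) : 0 < V.card ∧ gord (vV v V) a = gord v a := by
  classical
  have hne : Nonempty (Fin r) := ⟨⟨0, hr⟩⟩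
  obtain ⟨j, hj⟩ : ∃ j, face v a j :=
    Nat.sInf_mem (Set.range_nonempty fun j : Fin r => ∑ i, a i * v j i)
  obtain ⟨l, h1, h2, h3, h4⟩ := hV j
  obtain ⟨k, hk⟩ := pos_wt h1 h3
  have hkV : k ∈ V := by
    by_contra h5
    exact hk.ne' (h2 k h5)
  have hfk := face_of_low v V j l h1 h3 h4 a hj k hk
  obtain ⟨i0, hi0⟩ := iV_surj V hkV
  have hpos : 0 < V.card := lt_of_le_of_lt (Nat.zero_le _) i0.2
  refine ⟨hpos, le_antisymm ?_ ?_⟩
  · have h5 := gord_le (vV v V) a i0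
    have h6 : ∑ i, a i * vV v V i0 i = gord v a := by
      unfold vV
      rw [hi0]
      exact hfk
    rw [h6] at h5
    exact h5
  · have hne' : Nonempty (Fin V.card) := ⟨i0⟩
    obtain ⟨i, hi⟩ : ∃ j, face (vV v V) a j :=
      Nat.sInf_mem (Set.range_nonempty fun j : Fin V.card => ∑ i, a i * vV v V j i)
    have h5 : ∑ x, a x * vV v V i x = gord (vV v V) a := hi
    rw [← h5]
    exact gord_le v a (iV V i)

lemma ray_vV (hr : 0 < r) (v : Fin r → Fin N → ℕ) (V : Finset (Fin r)) (hV : Spans v V)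
    (a : Fin N → ℕ) (ha : IsRay (vV v V) a) : IsRay v a := by
  have hg := fun a => (gord_vV hr v V hV a).2
  refine ⟨ha.1, fun u hu hf => ha.2 u hu fun i i' hi hi' => ?_⟩
  have h1 : face v a (iV V i) := by
    unfold face at hi ⊢
    rw [hg] at hi
    exact hi
  have h2 : face v a (iV V i') := by
    unfold face at hi' ⊢
    rw [hg] at hi'
    exact hi'
  exact hf _ _ h1 h2

lemma face_vV (hr : 0 < r) (v : Fin r → Fin N → ℕ) (V : Finset (Fin r)) (hV : Spans v V)
    (a : Fin N → ℕ) (i : Fin V.card) : face (vV v V) a i ↔ OnFace v a (iV V i) := by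
  have hg := fun a => (gord_vV hr v V hV a).2
  unfold face
  rw [hg]
  rfl

lemma simR_vV (hr : 0 < r) (v : Fin r → Fin N → ℕ) (V : Finset (Fin r)) (hV : Spans v V)
    (a : Fin N → ℕ) (h1 : SimpVL v V a) : SimR (vV v V) a := by
  classical
  have hface := face_vV hr v V hV
  intro w hw1 hw2
  set W : Fin r → ℚ := fun j => if hj : ∃ x, iV V x = j then w hj.choose else 0 with hW
  have hWi : ∀ x, W (iV V x) = w x := by
    intro x
    have h5 : ∃ x', iV V x' = iV V x := ⟨x, rfl⟩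
    rw [hW]
    simp only
    rw [dif_pos h5, iV_inj V h5.choose_spec]
  have h4 := h1 W (fun j hj => by
    by_cases hx : ∃ x, iV V x = j
    · obtain ⟨x, rfl⟩ := hx
      rw [hWi]
      by_contra hne
      have hfx : face (vV v V) a x := by
        by_contra h6
        exact hne (hw1 x h6)
      exact hj ⟨iV_mem V x, (hface a x).1 hfx⟩
    · rw [hW]
      simp only
      rw [dif_neg hx]) (fun i hi => by
      have h5 := hw2 i hi
      have h6 : ∑ j, W j * (v j i : ℚ) = ∑ x, w x * (vV v V x i : ℚ) := by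
        have h7 : ∑ x, w x * (vV v V x i : ℚ) =
            ∑ j ∈ Finset.univ.image (iV V), W j * (v j i : ℚ) := by
          rw [Finset.sum_image (fun i _ i' _ h => iV_inj V h)]
          refine Finset.sum_congr rfl fun x _ => ?_
          rw [hWi]
          rfl
        rw [h7]
        symm
        refine Finset.sum_subset (Finset.subset_univ _) fun j _ hj => ?_
        have h8 : ¬ ∃ x, iV V x = j := by
          rintro ⟨x, rfl⟩
          exact hj (Finset.mem_image_of_mem _ (Finset.mem_univ _))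
        rw [hW]
        simp only
        rw [dif_neg h8, zero_mul]
      rw [h6]
      exact h5)
  intro x
  rw [← hWi]
  exact h4 _

lemma b1_vV (hr : 0 < r) (v : Fin r → Fin N → ℕ) (V : Finset (Fin r)) (hV : Spans v V)
    (a : Fin N → ℕ) (i : Fin N) (h : B1VL v V i a) : B1 (vV v V) i a := by
  have hface := face_vV hr v V hV
  obtain ⟨hai, j0, hj0, hf0, hv1, hu⟩ := h
  obtain ⟨x0, hx0⟩ := iV_surj V hj0
  refine ⟨hai, x0, ?_, ?_, fun x hx hxn => ?_⟩
  · rw [hface, hx0]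
    exact hf0
  · unfold vV
    rw [hx0, hv1]
  · unfold vV
    refine hu _ (iV_mem V x) ((hface a x).1 hx) fun h5 => hxn (iV_inj V ?_)
    rw [h5, hx0]

/-- the condition at the level `σ` -/
def LocVY (v : Fin r → Fin N → ℕ) (V : Finset (Fin r)) (Y : Finset (Fin N)) (σ : ℚ) : Prop :=
  ∀ j1 ∈ V, (∃ i, ∀ a : Fin N → ℕ, IsRay v a → 0 < ordA v a → OnFace v a j1 →
      lev v a = σ → SimpVL v V a ∨ B1VL v V i a) ∨
    ∀ a : Fin N → ℕ, IsRay v a → 0 < ordA v a → OnFace v a j1 →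
      lev v a = σ → SimpVL v V a ∨ ∃ i ∈ Y, B1VL v V i a

/-- from the condition on the facets to the criterion -/
theorem hypSY_vV (hr : 0 < r) (v : Fin r → Fin N → ℕ) (V : Finset (Fin r))
    (hV : Spans v V) (Y : Finset (Fin N)) (σ : ℚ) (hL : LocVY v V Y σ) :
    HypSY (vV v V) Y (σ : ℝ) := by
  classical
  have hcard := (gord_vV hr v V hV 0).1
  have hg := fun a => (gord_vV hr v V hV a).2
  refine hypSY_of hcard _ _ _ fun x1 => ?_
  have hcast : ∀ a : Fin N → ℕ, IsRay (vV v V) a →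
      0 < gord (vV v V) a → face (vV v V) a x1 →
      ((∑ i, a i : ℕ) : ℝ) / gord (vV v V) a = (σ : ℝ) →
      IsRay v a ∧ 0 < ordA v a ∧ OnFace v a (iV V x1) ∧ lev v a = σ := by
    intro a ha hga hf hs
    rw [hg] at hga hs
    refine ⟨ray_vV hr v V hV a ha, hga, (face_vV hr v V hV a x1).1 hf, ?_⟩
    unfold lev
    apply Rat.cast_injective (α := ℝ)
    push_cast
    push_cast at hs
    exact hs
  rcases hL _ (iV_mem V x1) with ⟨i, hi⟩ | hi
  · refine Or.inl ⟨i, fun a ha hga hf hs => ?_⟩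
    obtain ⟨h1, h2, h3, h4⟩ := hcast a ha hga hf hs
    exact (hi a h1 h2 h3 h4).imp (simR_vV hr v V hV a) (b1_vV hr v V hV a i)
  · refine Or.inr fun a ha hga hf hs => ?_
    obtain ⟨h1, h2, h3, h4⟩ := hcast a ha hga hf hs
    refine (hi a h1 h2 h3 h4).imp (simR_vV hr v V hV a) ?_
    rintro ⟨i, hiY, h5⟩
    exact ⟨i, hiY, b1_vV hr v V hV a _ h5⟩

/-- the recurrences at the bad levels -/
theorem hb_ndX (hr : 0 < r) (v : Fin r → Fin N → ℕ) (hv : Function.Injective v)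
    (Y D : Finset (Fin N)) (hY : YOK v Y) (V : Finset (Fin r)) (hV : SpansD v V D) (P : ℚ → Prop)
    (hP : ∀ α, ¬ P α → ∃ (θ : Fin V.card → ℤ) (p : Polynomial ℂ),
      RelG (vV v V) (Kil1 (vV v V)) (KilU (vV v V) θ) p ∧ p.eval (α : ℂ) ≠ 0)
    (J : Finset (Fin N)) (hJ : D ⊆ J) (q : ℕ) (hq : 2 ≤ q) (e : Finset (Fin r) → ℂ)
    (he : KRelJ q v J e) (T0 : ℂ) (hT0 : T0 ≠ 0) (σ : ℚ) (hσ : LocVY v V Y σ ∧ ¬ P (-σ))
    (hlog : Real.log ‖T0‖ / Real.log q = (σ : ℝ)) : RecJ q v e J T0 := by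
  classical
  have hcard := (gord_vV hr v V hV.spans 0).1
  obtain ⟨hL, hPσ⟩ := hσ
  obtain ⟨θ, p, hrel, hp⟩ := hP _ hPσ
  have hma : ∀ j', ∃ j, v j = vV v V j' := fun j' => ⟨iV V j', rfl⟩
  have hmb : ∀ j, InN (vV v V) J (v j) := fun j => inN_vV v V D J hV hJ j
  have he' := krelJ_phi v (vV v V) hv hma q J e he
  have h1 : ((-Real.log ‖T0‖ / Real.log q : ℝ) : ℂ) = ((-σ : ℚ) : ℂ) := by
    rw [neg_div, hlog]
    push_cast
    rfl
  obtain ⟨Q, hQ, hrec⟩ := recJ_genY q hq (vV v V) Y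
    ⟨fun i hi _ => hY.1 i hi _, fun i hi _ hi' _ => hY.2 i hi _ hi' _⟩ p θ hrel J _ he' T0
    hT0 (by rw [h1]; exact hp) (by rw [hlog]; exact hypSY_vV hr v V hV.spans Y σ hL)
  refine ⟨Q, hQ, ?_⟩
  filter_upwards [hrec] with t ht
  rw [← ht]
  refine Finset.sum_congr rfl fun m _ => ?_
  rw [aJ_phiN v (vV v V) J hr hcard hma hmb]

/-- restriction of the relation to the exponents in `V` -/
theorem rel_vV (v : Fin r → Fin N → ℕ) (V : Finset (Fin r)) (hV : Spans v V)
    (loc : Prop) (p : Polynomial ℂ)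
    (h : ∀ θ : Fin r → ℝ, LinearIndependent ℚ θ → RelV v θ loc p) :
    ∃ θ' : Fin V.card → ℤ, RelG (vV v V) (Kil1 (vV v V)) (KilU (vV v V) θ') p := by
  refine relG_restrNP v (vV v V) (iV V) (iV_inj V) (fun i => rfl) (fun j _ => ?_) loc p h
  obtain ⟨l, h1, h2, h3, h4⟩ := hV j
  refine ⟨fun i => l (iV V i), fun i => h1 _, ?_, fun x => ?_⟩
  · have h6 := sum_vV V l h2 fun _ => 1
    simp only [mul_one] at h6
    rw [h6, h3]
  · have h6 := sum_vV V l h2 fun k => (v k x : ℝ)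
    have h7 := h4 x
    rw [← h6] at h7
    exact h7

/-- **Nondegenerate polynomials, at the origin.** -/
theorem nd_motX {k : Type} [Field k] [Algebra k ℂ] (hr : 0 < r)
    (v : Fin r → Fin N → ℕ) (hv : Function.Injective v) (c : Fin r → k) (hc : ∀ j, c j ≠ 0)
    (hnd : Nondegenerate v (fun j => algebraMap k ℂ (c j))) (V : Finset (Fin r))
    (hV : Spans v V) (hL : HypVL v V) :
    ∃ S : Finset (ℤ × ℤ),
      (∀ p ∈ S, p.1 < 0 ∧ 0 < p.2 ∧ ∀ b : Polynomial ℂ, b.eval (-1) = 0 →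
        UnitEq True (spa v (fun j => algebraMap k ℂ (c j))) b →
          ∃ i : ℤ, b.eval ((p.1 : ℂ) / p.2 - i) = 0) ∧
      (∀ (K : Type) [Field K] [Algebra k K] (W : Set (Pt K (Fin N)))
        (E : Set (AlgebraicClosure K)), Constr W → Good E → (∀ z ∈ W, ∀ i, z i = 0) →
        zetaG (spa v (fun j => algebraMap k K (c j))) W E ∈ ratRing K S) := by
  classical
  have hne : NeZero r := ⟨by omega⟩
  have hkc : CharZero k := RingHom.charZero (algebraMap k ℂ)
  have hnd' : Nondeg v (fun j => algebraMap k ℂ (c j)) := hnd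
  set P : ℚ → Prop := PW True (spa v (fun j => algebraMap k ℂ (c j))) with hPdef
  have hP : ∀ α, ¬ P α → ∃ (θ : Fin V.card → ℤ) (p : Polynomial ℂ),
      RelG (vV v V) (Kil1 (vV v V)) (KilU (vV v V) θ) p ∧ p.eval (α : ℂ) ≠ 0 := by
    intro α hα
    rw [hPdef] at hα
    unfold PW at hα
    push Not at hα
    obtain ⟨b, hb1, hb, hroot⟩ := hα
    obtain ⟨K, hK⟩ := relAll parts True v _ hv hnd' b hb
    obtain ⟨θ, hθ⟩ := rel_vV v V hV True (prodb b K) hK
    refine ⟨θ, prodb b K, hθ, ?_⟩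
    rw [prodb_eval, Finset.prod_ne_zero_iff]
    intro i _
    exact_mod_cast hroot (i : ℤ)
  obtain ⟨S, hS, hz1⟩ := fin_W v hr (fun σ => LocVY v V ∅ σ ∧ ¬ P (-σ)) Finset.univ
    (fun J hJ q hq e he T0 hT0 σ hσ hlog => hb_ndX hr v hv ∅ Finset.univ
      ⟨fun i hi => absurd hi (Finset.notMem_empty i),
        fun i hi => absurd hi (Finset.notMem_empty i)⟩ V (spansD_univ hV) P hP J hJ q hq e he T0
      hT0 σ hσ hlog)
  have hspa : ∀ {K : Type} [Field K] (c' : Fin r → K), spa v c' = sp 0 v c' 1 := by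
    intro K _ c'
    unfold sp spa
    simp
  refine ⟨insert (-1, 1) S, fun p hp => ?_, fun K _ _ W E hW hE hWD => ?_⟩
  · rcases Finset.mem_insert.1 hp with rfl | hp
    · refine ⟨by norm_num, by norm_num, fun b hb _ => ⟨0, ?_⟩⟩
      have h1 : (((-1 : ℤ) : ℂ) / ((1 : ℤ) : ℂ) - ((0 : ℤ) : ℂ)) = -1 := by
        push_cast
        ring
      rw [h1, hb]
    obtain ⟨a, ha, hg, hn, rfl⟩ := hS p hp
    refine ⟨pos_of_ray ha, Int.natCast_pos.2 hg, fun b hb hU => ?_⟩
    have hgC : ((gord v a : ℕ) : ℂ) ≠ 0 := by exact_mod_cast hg.ne'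
    rcases hL a ha hg with ⟨t, ht⟩ | ⟨a', hg', hN, z, hz⟩ | hloc
    · have ht' : ∑ i, a i = gord v a * t := ht
      refine ⟨-(t : ℤ) + 1, ?_⟩
      have h1 : ((-((∑ i, a i : ℕ) : ℤ) : ℤ) : ℂ) / ((gord v a : ℤ) : ℂ) -
          ((-(t : ℤ) + 1 : ℤ) : ℂ) = -1 := by
        rw [ht']
        push_cast
        field_simp
        ring
      rw [h1, hb]
    · obtain ⟨K, hK⟩ := relAll parts True v _ hv hnd' b hU
      have h1 := a5 v True (prodb b K) hK a' hg' hN
      rw [prodb_eval, Finset.prod_eq_zero_iff] at h1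
      obtain ⟨i, -, hi⟩ := h1
      refine ⟨(i : ℤ) - z, ?_⟩
      have h2 : ((∑ i, a i : ℕ) : ℂ) / gord v a = ((∑ i, a' i : ℕ) : ℂ) / gord v a' + z := by
        have := congrArg (fun q : ℚ => (q : ℂ)) hz
        unfold lev at this
        push_cast at this ⊢
        exact this
      have h3 : ((-((∑ i, a i : ℕ) : ℤ) : ℤ) : ℂ) / ((gord v a : ℤ) : ℂ) -
          (((i : ℤ) - z : ℤ) : ℂ) = -(((∑ i, a' i : ℕ) : ℂ) / gord v a') - i := by
        push_cast at h2 ⊢
        rw [neg_div, h2]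
        ring
      rw [h3]
      exact hi
    · have h1 : P (-(((∑ i, a i : ℕ) : ℚ) / gord v a)) := by
        by_contra hcon
        exact hn ⟨fun j1 hj1 => Or.inl (hloc j1 hj1), hcon⟩
      obtain ⟨i, hi⟩ := h1 b hb hU
      refine ⟨i, ?_⟩
      have e : ((-((∑ i, a i : ℕ) : ℤ) : ℤ) : ℂ) / ((gord v a : ℤ) : ℂ) =
          ((-(((∑ i, a i : ℕ) : ℚ) / gord v a) : ℚ) : ℂ) := by
        push_cast
        ring
      rw [e]
      exact hi
  · have hK : CharZero K := charZero_of_injective_algebraMap (algebraMap k K).injective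
    rw [hspa]
    exact Pool.Agent.TH216.LX.mem_insert_ring S _ (hz1 K _
      (nonG_of Pool.Agent.W67.MM.taskB1 k K v c hr hnd')
      (fun j => (map_ne_zero _).2 (hc j)) W E hW hE fun z hz i _ => hWD z hz i)

end Pool.Agent.TH216.ND
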