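import Pool.Agent.TH216.MF.ExtL
import Pool.Agent.TH216.MF.Conv
import Pool.Agent.W422.GC.Vol2

set_option autoImplicit false

/-! Restriction of the relation: the exponents in the convex hull of the others are removed. -/

namespace Pool.Agent.TH216.ND

open MvPolynomial Pool.Agent.H628R4.TZ Pool.Agent.W425.SM Pool.Agent.W425.SV
open Pool.Agent.TH216.MF (RelG KilU InC)

variable {N : ℕ}

/-- integral weights, real forms -/
lemma approxR {r n0 : ℕ} (d : Fin n0 → Fin r → ℝ) (P : Fin n0 → Prop) (θ : Fin r → ℝ)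
    (h : ∀ k, P k → 0 < ∑ j, d k j * θ j) :
    ∃ θ' : Fin r → ℤ, ∀ k, P k → 0 < ∑ j, d k j * (θ' j : ℝ) := by
  classical
  obtain ⟨n, hn⟩ := exists_nat_gt (∑ k, |(∑ j, |d k j|) / ∑ j, d k j * θ j|)
  refine ⟨fun j => ⌊(n : ℝ) * θ j⌋, fun k hk => ?_⟩
  have h1 : (∑ j, |d k j|) / ∑ j, d k j * θ j < n :=
    lt_of_le_of_lt ((le_abs_self _).trans (Finset.single_le_sum (f := fun k => |(∑ j, |d k j|) /
      ∑ j, d k j * θ j|) (fun k _ => abs_nonneg _) (Finset.mem_univ k))) hn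
  rw [div_lt_iff₀ (h k hk)] at h1
  have h3 : ∀ j, d k j * (n * θ j) - |d k j| ≤ d k j * ((⌊(n : ℝ) * θ j⌋ : ℤ) : ℝ) := by
    intro j
    have h4 := Int.floor_le ((n : ℝ) * θ j)
    have h5 := Int.lt_floor_add_one ((n : ℝ) * θ j)
    rcases le_or_gt 0 (d k j) with h6 | h6
    · rw [abs_of_nonneg h6]
      nlinarith
    · rw [abs_of_neg h6]
      nlinarith
  have h4 := Finset.sum_le_sum fun (j : Fin r) (_ : j ∈ Finset.univ) => h3 j
  rw [Finset.sum_sub_distrib] at h4
  have h5 : ∑ j, d k j * (n * θ j) = n * ∑ j, d k j * θ j := by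
    rw [Finset.mul_sum]
    exact Finset.sum_congr rfl fun j _ => by ring
  rw [h5] at h4
  linarith

/-- subfamily of terms -/
lemma sub_fam {n : ℕ} (S : Finset (Fin n)) (T : Type) [CommRing T]
    (g : Fin n → T) :
    ∃ (n' : ℕ) (e : Fin n' → Fin n), (∀ k, e k ∈ S) ∧ ∑ k ∈ S, g k = ∑ k, g (e k) := by
  classical
  refine ⟨S.card, fun k => (S.equivFin.symm k).1, fun k => (S.equivFin.symm k).2, ?_⟩
  rw [← Finset.sum_coe_sort S]
  exact (Equiv.sum_comp S.equivFin.symm (fun x : S => g x)).symm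

/-- **Restriction of the relation.** -/
theorem relG_restr {R R' : ℕ} (m : Fin R → Fin N → ℕ) (m' : Fin R' → Fin N → ℕ)
    (ι : Fin R' → Fin R) (hι : Function.Injective ι) (hm : ∀ i, m (ι i) = m' i)
    (hull : ∀ j, (∀ i, ι i ≠ j) → InC m' Finset.univ (m j)) (loc : Prop) (p : Polynomial ℂ)
    (h : ∀ θ : Fin R → ℝ, LinearIndependent ℚ θ → RelV m θ loc p) :
    ∃ θ' : Fin R' → ℤ, RelG m' (Kil1 m') (KilU m' θ') p := by
  classical
  -- the convex combinations
  have hlam : ∀ j, ∃ lam : Fin R' → ℝ, (∀ i, 0 ≤ lam i) ∧ ((∀ i, ι i ≠ j) → ∑ i, lam i = 1 ∧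
      ∀ x, ∑ i, lam i * (m' i x : ℝ) = (m j x : ℝ)) := by
    intro j
    by_cases hj : ∀ i, ι i ≠ j
    · obtain ⟨l, h1, -, h3, h4⟩ := hull j hj
      exact ⟨l, h1, fun _ => ⟨h3, h4⟩⟩
    · exact ⟨0, fun _ => le_rfl, fun h => absurd h hj⟩
  choose lam hlam0 hlam1 using hlam
  -- the indices outside
  set Out : Finset (Fin R) := Finset.univ.filter fun j => ∀ i, ι i ≠ j with hOut
  have hsplit : ∀ f : Fin R → ℝ, ∑ j, f j = ∑ i, f (ι i) + ∑ j ∈ Out, f j := by
    intro f
    rw [← Finset.sum_filter_add_sum_filter_not Finset.univ (fun j => ¬ ∀ i, ι i ≠ j)]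
    congr 1
    · rw [← Finset.sum_image (s := Finset.univ) (g := ι) (f := f) (fun i _ i' _ h => hι h)]
      refine Finset.sum_congr ?_ fun _ _ => rfl
      ext j
      simp only [Finset.mem_filter, Finset.mem_univ, true_and, Finset.mem_image]
      push Not
      rfl
    · refine Finset.sum_congr ?_ fun _ _ => rfl
      ext j
      simp only [hOut, Finset.mem_filter, Finset.mem_univ, true_and, not_not]
  -- the heights
  obtain ⟨θ0, hθ0⟩ := Pool.Agent.W422.GC.exists_heights R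
  have hθ0ne : ∀ j, θ0 j ≠ 0 := fun j => hθ0.ne_zero j
  obtain ⟨K, hK⟩ := exists_nat_gt (∑ j, (∑ j', |θ0 j'|) / |θ0 j|)
  have hK0 : (0 : ℝ) < K := lt_of_le_of_lt (Finset.sum_nonneg fun j _ =>
    div_nonneg (Finset.sum_nonneg fun _ _ => abs_nonneg _) (abs_nonneg _)) hK
  have hKj : ∀ j, ∑ j', |θ0 j'| < K * |θ0 j| := by
    intro j
    have h1 : (∑ j', |θ0 j'|) / |θ0 j| < K := lt_of_le_of_lt
      (Finset.single_le_sum (f := fun j => (∑ j', |θ0 j'|) / |θ0 j|)
        (fun j _ => div_nonneg (Finset.sum_nonneg fun _ _ => abs_nonneg _) (abs_nonneg _))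
        (Finset.mem_univ j)) hK
    rwa [div_lt_iff₀ (abs_pos.2 (hθ0ne j))] at h1
  set sg : Fin R → ℚ := fun j => if (∀ i, ι i ≠ j) then
    (if 0 < θ0 j then -(K : ℚ) else (K : ℚ)) else 1 with hsg
  have hK0' : (K : ℚ) ≠ 0 := by
    have : (K : ℝ) ≠ 0 := hK0.ne'
    exact_mod_cast this
  have hsgne : ∀ j, sg j ≠ 0 := by
    intro j
    simp only [hsg]
    split_ifs
    · exact neg_ne_zero.2 hK0'
    · exact hK0'
    · exact one_ne_zero
  set θ : Fin R → ℝ := fun j => (sg j : ℝ) * θ0 j with hθ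
  have hθlin : LinearIndependent ℚ θ := by
    have h1 := hθ0.units_smul fun j => Units.mk0 (sg j) (hsgne j)
    convert h1 using 1
    funext j
    rw [hθ]
    simp only [Pi.smul_apply', Units.smul_def, Units.val_mk0]
    rw [Rat.smul_def]
  have hθι : ∀ i, θ (ι i) = θ0 (ι i) := by
    intro i
    rw [hθ]
    simp only [hsg]
    rw [if_neg (fun h => h i rfl)]
    simp
  have hθout : ∀ j, (∀ i, ι i ≠ j) → θ j = -(K * |θ0 j|) := by
    intro j hj
    rw [hθ]
    simp only [hsg, if_pos hj]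
    by_cases h1 : 0 < θ0 j
    · rw [if_pos h1, abs_of_pos h1]
      push_cast
      ring
    · rw [if_neg h1, abs_of_nonpos (not_lt.1 h1)]
      push_cast
      ring
  have hlow : ∀ j, (∀ i, ι i ≠ j) → θ j < ∑ i, lam j i * θ (ι i) := by
    intro j hj
    rw [hθout j hj]
    have h1 : -(∑ j', |θ0 j'|) ≤ ∑ i, lam j i * θ (ι i) := by
      have h2 : ∀ i, lam j i * -(∑ j', |θ0 j'|) ≤ lam j i * θ (ι i) := by
        intro i
        refine mul_le_mul_of_nonneg_left ?_ (hlam0 j i)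
        rw [hθι]
        have h3 := Finset.single_le_sum (f := fun j => |θ0 j|)
          (fun j _ => abs_nonneg _) (Finset.mem_univ (ι i))
        have h4 := neg_abs_le (θ0 (ι i))
        have h3' : |θ0 (ι i)| ≤ ∑ j', |θ0 j'| := h3
        linarith
      have h5 := Finset.sum_le_sum fun (i : Fin R') (_ : i ∈ Finset.univ) => h2 i
      rw [← Finset.sum_mul, (hlam1 j hj).1, one_mul] at h5
      exact h5
    have h2 := hKj j
    linarith
  obtain ⟨M, n, n0, c, B, q, c0, q0, hc, hc0, hrel⟩ := h θ hθlin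
  -- the map
  set φ : MvPolynomial (Fin R) ℂ →ₐ[ℂ] MvPolynomial (Fin R') ℂ :=
    aeval fun j => if hj : ∃ i, ι i = j then X hj.choose else 0 with hφ
  have hφι : ∀ i, φ (X (ι i)) = X i := by
    intro i
    have h1 : ∃ i', ι i' = ι i := ⟨i, rfl⟩
    rw [hφ, aeval_X, dif_pos h1, hι h1.choose_spec]
  have hφout : ∀ j, (∀ i, ι i ≠ j) → φ (X j) = 0 := by
    intro j hj
    rw [hφ, aeval_X, dif_neg (fun ⟨i, hi⟩ => hj i hi)]
  have hφC : ∀ a : ℂ, φ (C a) = C a := fun a => φ.commutes a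
  have hdmι : ∀ i, φ (dm M (ι i)) = dm M i := by
    intro i
    unfold dm
    rw [map_prod]
    refine Finset.prod_congr rfl fun t _ => ?_
    rw [map_add, hφι, hφC]
  have hdmout : ∀ j, (∀ i, ι i ≠ j) → φ (dm M j) = C ((∏ t ∈ Finset.range M,
      ((t + 1 : ℕ) : ℂ))) := by
    intro j hj
    unfold dm
    rw [map_prod, map_prod]
    refine Finset.prod_congr rfl fun t _ => ?_
    rw [map_add, hφout j hj, hφC, zero_add]
  set κ : ℂ := ∏ j ∈ Out, ∏ t ∈ Finset.range M, ((t + 1 : ℕ) : ℂ) with hκ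
  have hκ0 : κ ≠ 0 := by
    refine Finset.prod_ne_zero_iff.2 fun j _ => Finset.prod_ne_zero_iff.2 fun t _ => ?_
    exact_mod_cast Nat.succ_ne_zero t
  have hprodsplit : ∀ f : Fin R → MvPolynomial (Fin R') ℂ, ∏ j, f j =
      (∏ i, f (ι i)) * ∏ j ∈ Out, f j := by
    intro f
    rw [← Finset.prod_filter_mul_prod_filter_not Finset.univ (fun j => ¬ ∀ i, ι i ≠ j)]
    congr 1
    · rw [← Finset.prod_image (s := Finset.univ) (g := ι) (f := f) (fun i _ i' _ h => hι h)]
      refine Finset.prod_congr ?_ fun _ _ => rfl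
      ext j
      simp only [Finset.mem_filter, Finset.mem_univ, true_and, Finset.mem_image]
      push Not
      rfl
    · refine Finset.prod_congr ?_ fun _ _ => rfl
      ext j
      simp only [hOut, Finset.mem_filter, Finset.mem_univ, true_and, not_not]
  have hφdm : φ (∏ j, dm M j) = C κ * ∏ i, dm M i := by
    rw [map_prod, hprodsplit]
    simp only [hdmι]
    rw [mul_comm, hκ, map_prod]
    congr 1
    refine Finset.prod_congr rfl fun j hj => ?_
    rw [hdmout j (Finset.mem_filter.1 hj).2]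
  have hφsum : φ (∑ j, X j) = ∑ i, X i := by
    rw [map_sum]
    have h1 : ∑ j, φ (X j) = ∑ i, φ (X (ι i)) + ∑ j ∈ Out, φ (X j) := by
      rw [← Finset.sum_filter_add_sum_filter_not Finset.univ (fun j => ¬ ∀ i, ι i ≠ j)]
      congr 1
      · rw [← Finset.sum_image (s := Finset.univ) (g := ι) (f := fun j => φ (X j))
          (fun i _ i' _ h => hι h)]
        refine Finset.sum_congr ?_ fun _ _ => rfl
        ext j
        simp only [Finset.mem_filter, Finset.mem_univ, true_and, Finset.mem_image]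
        push Not
        rfl
      · refine Finset.sum_congr ?_ fun _ _ => rfl
        ext j
        simp only [hOut, Finset.mem_filter, Finset.mem_univ, true_and, not_not]
    rw [h1, Finset.sum_eq_zero (s := Out) fun j hj => hφout j (Finset.mem_filter.1 hj).2,
      add_zero]
    exact Finset.sum_congr rfl fun i _ => hφι i
  have hφel : ∀ x, φ (el m x) = el m' x := by
    intro x
    have e1 : el m x = 1 + ∑ j, C ((m j x : ℕ) : ℂ) * X j := rfl
    have e2 : el m' x = 1 + ∑ i, C ((m' i x : ℕ) : ℂ) * X i := rfl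
    rw [e1, e2, map_add, map_one, map_sum]
    congr 1
    have h1 : ∑ j, φ (C ((m j x : ℕ) : ℂ) * X j) = ∑ i, φ (C ((m (ι i) x : ℕ) : ℂ) * X (ι i)) +
        ∑ j ∈ Out, φ (C ((m j x : ℕ) : ℂ) * X j) := by
      rw [← Finset.sum_filter_add_sum_filter_not Finset.univ (fun j => ¬ ∀ i, ι i ≠ j)]
      congr 1
      · rw [← Finset.sum_image (s := Finset.univ) (g := ι)
          (f := fun j => φ (C ((m j x : ℕ) : ℂ) * X j)) (fun i _ i' _ h => hι h)]
        refine Finset.sum_congr ?_ fun _ _ => rfl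
        ext j
        simp only [Finset.mem_filter, Finset.mem_univ, true_and, Finset.mem_image]
        push Not
        rfl
      · refine Finset.sum_congr ?_ fun _ _ => rfl
        ext j
        simp only [hOut, Finset.mem_filter, Finset.mem_univ, true_and, not_not]
    rw [h1, Finset.sum_eq_zero (s := Out) fun j hj => by
      rw [map_mul, hφout j (Finset.mem_filter.1 hj).2, mul_zero], add_zero]
    refine Finset.sum_congr rfl fun i _ => ?_
    rw [map_mul, hφι, hφC, hm]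
  have hφprod : ∀ c : Fin R → ℤ, (∀ j, (∀ i, ι i ≠ j) → 0 ≤ c j) →
      φ (∏ j, if c j < 0 then X j * dm M j else 1) =
        ∏ i, if c (ι i) < 0 then X i * dm M i else 1 := by
    intro c hcj
    rw [map_prod, hprodsplit]
    rw [Finset.prod_eq_one (s := Out) fun j hj => by
      rw [if_neg (not_lt.2 (hcj j (Finset.mem_filter.1 hj).2)), map_one], mul_one]
    refine Finset.prod_congr rfl fun i _ => ?_
    split_ifs
    · rw [map_mul, hφι, hdmι]
    · rw [map_one]
  have hφprod0 : ∀ c : Fin R → ℤ, (¬ ∀ j, (∀ i, ι i ≠ j) → 0 ≤ c j) →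
      φ (∏ j, if c j < 0 then X j * dm M j else 1) = 0 := by
    intro c hcj
    push Not at hcj
    obtain ⟨j, hj, hcj⟩ := hcj
    rw [map_prod]
    refine Finset.prod_eq_zero (Finset.mem_univ j) ?_
    rw [if_pos hcj, map_mul, hφout j hj, zero_mul]
  set Sv : Finset (Fin n) := Finset.univ.filter fun k => ∀ j, (∀ i, ι i ≠ j) → 0 ≤ c k j with hSv
  set Sv0 : Finset (Fin n0) :=
    Finset.univ.filter fun k => ∀ j, (∀ i, ι i ≠ j) → 0 ≤ c0 k j with hSv0
  obtain ⟨n', e, he, hsum⟩ := sub_fam Sv (MvPolynomial (Fin R') ℂ) fun k =>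
    (∏ x ∈ B k, el m' x) * ((∏ i, if c k (ι i) < 0 then X i * dm M i else 1) * φ (q k))
  obtain ⟨n0', e0, he0, hsum0⟩ := sub_fam Sv0 (MvPolynomial (Fin R') ℂ) fun k =>
    (∏ i, if c0 k (ι i) < 0 then X i * dm M i else 1) * φ (q0 k)
  have hrel' : Polynomial.aeval (∑ i, X i : MvPolynomial (Fin R') ℂ) p * (C κ * ∏ i, dm M i) =
      ∑ k, (∏ x ∈ B (e k), el m' x) *
        ((∏ i, if c (e k) (ι i) < 0 then X i * dm M i else 1) * φ (q (e k))) +
      ∑ k, (∏ i, if c0 (e0 k) (ι i) < 0 then X i * dm M i else 1) * φ (q0 (e0 k)) := by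
    rw [← hsum, ← hsum0, ← hφdm, ← hφsum, Polynomial.aeval_algHom_apply, ← map_mul, hrel, map_add,
      map_sum, map_sum]
    congr 1
    · rw [← Finset.sum_filter_add_sum_filter_not Finset.univ
        (fun k => ∀ j, (∀ i, ι i ≠ j) → 0 ≤ c k j)]
      rw [Finset.sum_eq_zero (s := Finset.univ.filter fun k => ¬ ∀ j, (∀ i, ι i ≠ j) → 0 ≤ c k j)
        fun k hk => by
          rw [map_mul, map_mul, hφprod0 _ (Finset.mem_filter.1 hk).2, zero_mul, mul_zero],
        add_zero]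
      refine Finset.sum_congr rfl fun k hk => ?_
      rw [map_mul, map_mul, hφprod _ (Finset.mem_filter.1 hk).2, map_prod]
      simp only [hφel]
    · rw [← Finset.sum_filter_add_sum_filter_not Finset.univ
        (fun k => ∀ j, (∀ i, ι i ≠ j) → 0 ≤ c0 k j)]
      rw [Finset.sum_eq_zero (s := Finset.univ.filter fun k => ¬ ∀ j, (∀ i, ι i ≠ j) → 0 ≤ c0 k j)
        fun k hk => by
          rw [map_mul, hφprod0 _ (Finset.mem_filter.1 hk).2, zero_mul], add_zero]
      refine Finset.sum_congr rfl fun k hk => ?_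
      rw [map_mul, hφprod _ (Finset.mem_filter.1 hk).2]
  -- the combination `d` which belongs to `c + l`
  have hd : ∀ (y : Fin R → ℝ) (f : Fin R → ℝ),
      ∑ i, (y (ι i) + ∑ j ∈ Out, y j * lam j i) * f (ι i) =
        ∑ j, y j * f j + ∑ j ∈ Out, y j * (∑ i, lam j i * f (ι i) - f j) := by
    intro y f
    rw [hsplit fun j => y j * f j]
    have h1 : ∑ i, (y (ι i) + ∑ j ∈ Out, y j * lam j i) * f (ι i) =
        ∑ i, y (ι i) * f (ι i) + ∑ j ∈ Out, y j * ∑ i, lam j i * f (ι i) := by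
      have h2 : ∀ i, (y (ι i) + ∑ j ∈ Out, y j * lam j i) * f (ι i) =
          y (ι i) * f (ι i) + ∑ j ∈ Out, y j * (lam j i * f (ι i)) := by
        intro i
        rw [add_mul, Finset.sum_mul]
        congr 1
        exact Finset.sum_congr rfl fun j _ => by ring
      simp only [h2]
      rw [Finset.sum_add_distrib, Finset.sum_comm]
      congr 1
      exact Finset.sum_congr rfl fun j _ => by rw [Finset.mul_sum]
    rw [h1, add_assoc, ← Finset.sum_add_distrib]
    congr 1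
    exact Finset.sum_congr rfl fun j _ => by ring
  have hd1 : ∀ y : Fin R → ℝ, ∑ i, (y (ι i) + ∑ j ∈ Out, y j * lam j i) = ∑ j, y j := by
    intro y
    have h1 := hd y fun _ => 1
    simp only [mul_one] at h1
    rw [h1, Finset.sum_eq_zero (s := Out) fun j hj => by
      rw [(hlam1 j (Finset.mem_filter.1 hj).2).1, sub_self, mul_zero], add_zero]
  have hdm' : ∀ (y : Fin R → ℝ) (x : Fin N), ∑ i, (y (ι i) + ∑ j ∈ Out, y j * lam j i) *
      (m' i x : ℝ) = ∑ j, y j * (m j x : ℝ) := by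
    intro y x
    have h1 := hd y fun j => (m j x : ℝ)
    simp only [hm] at h1
    rw [h1, Finset.sum_eq_zero (s := Out) fun j hj => by
      rw [(hlam1 j (Finset.mem_filter.1 hj).2).2 x, sub_self, mul_zero], add_zero]
  -- the terms of weight zero
  have hl : ∀ k, ∃ l : Fin R → ℝ, (∀ j, 0 ≤ l j) ∧ ∑ j, ((c0 k j : ℝ) + l j) = 0 ∧
      (∀ x, ∑ j, ((c0 k j : ℝ) + l j) * (m j x : ℝ) ≤ 0) ∧
      ((0 < ∑ j, ((c0 k j : ℝ) + l j) * θ j ∧
        ∀ x, ∑ j, ((c0 k j : ℝ) + l j) * (m j x : ℝ) = 0) ∨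
      ∃ x, ∑ j, ((c0 k j : ℝ) + l j) * (m j x : ℝ) < 0) := by
    intro k
    rcases hc0 k with ⟨h1, h2, h3⟩ | ⟨-, l, h1, h2, h3, h4⟩
    · have h5 : ∀ x, ∑ j, ((c0 k j : ℝ) + 0) * (m j x : ℝ) = 0 := by
        intro x
        simp only [add_zero]
        exact_mod_cast h2 x
      refine ⟨fun _ => 0, fun _ => le_refl _, ?_, fun x => (h5 x).le, Or.inl ⟨?_, h5⟩⟩
      · simp only [add_zero]
        exact_mod_cast h1
      · simp only [add_zero]
        exact h3
    · exact ⟨l, h1, h2, h3, Or.inr h4⟩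
  choose l hl0 hl1 hl2 hl3 using hl
  set y : Fin n0 → Fin R → ℝ := fun k j => (c0 k j : ℝ) + l k j with hy
  set d : Fin n0 → Fin R' → ℝ := fun k i => y k (ι i) + ∑ j ∈ Out, y k j * lam j i with hdd
  obtain ⟨θ1, hθ1⟩ := approxR d (fun k => k ∈ Sv0 ∧ 0 < ∑ j, y k j * θ j) (fun i => θ (ι i))
    (by
      rintro k ⟨hk, hpos⟩
      have h1 := hd (y k) θ
      rw [h1]
      refine add_pos_of_pos_of_nonneg hpos (Finset.sum_nonneg fun j hj => ?_)
      refine mul_nonneg ?_ (sub_nonneg.2 (hlow j (Finset.mem_filter.1 hj).2).le)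
      have h2 : (0 : ℝ) ≤ c0 k j := by
        exact_mod_cast (Finset.mem_filter.1 hk).2 j (Finset.mem_filter.1 hj).2
      exact add_nonneg h2 (hl0 k j))
  have hδ : ∀ k, (∃ x, ∑ j, y k j * (m j x : ℝ) < 0) →
      ∑ i, d k i * ((∑ x, m' i x : ℕ) : ℝ) < 0 := by
    rintro k ⟨x, hx⟩
    have h1 : ∑ i, d k i * ((∑ x, m' i x : ℕ) : ℝ) = ∑ x, ∑ i, d k i * (m' i x : ℝ) := by
      rw [Finset.sum_comm]
      refine Finset.sum_congr rfl fun i _ => ?_
      push_cast
      rw [Finset.mul_sum]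
    rw [h1]
    have h2 : ∀ x, ∑ i, d k i * (m' i x : ℝ) = ∑ j, y k j * (m j x : ℝ) := fun x => hdm' (y k) x
    simp only [h2]
    refine lt_of_lt_of_eq (Finset.sum_lt_sum (g := fun _ => (0 : ℝ)) (fun x _ => hl2 k x)
      ⟨x, Finset.mem_univ x, hx⟩) Finset.sum_const_zero
  obtain ⟨Λ, hΛ⟩ := exists_nat_gt (∑ k, |∑ i, d k i * (θ1 i : ℝ)| /
    |∑ i, d k i * ((∑ x, m' i x : ℕ) : ℝ)|)
  refine ⟨fun i => θ1 i - Λ * ((∑ x, m' i x : ℕ) : ℤ), M, n', n0', fun k i => c (e k) (ι i),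
    fun k => B (e k), fun k => C κ⁻¹ * φ (q (e k)), fun k i => c0 (e0 k) (ι i),
    fun k => C κ⁻¹ * φ (q0 (e0 k)), fun k => ?_, fun k => ?_, ?_⟩
  · obtain ⟨l', h1, h2, h3⟩ := hc (e k)
    have hk := (Finset.mem_filter.1 (he k)).2
    refine ⟨fun i => l' (ι i) + ∑ j ∈ Out, ((c (e k) j : ℝ) + l' j) * lam j i, fun i => ?_, ?_,
      fun x hx => ?_⟩
    · refine add_nonneg (h1 _) (Finset.sum_nonneg fun j hj => mul_nonneg ?_ (hlam0 j i))
      have h4 : (0 : ℝ) ≤ c (e k) j := by exact_mod_cast hk j (Finset.mem_filter.1 hj).2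
      exact add_nonneg h4 (h1 j)
    · have h4 := hd1 fun j => (c (e k) j : ℝ) + l' j
      rw [← h2, ← h4]
      exact Finset.sum_congr rfl fun i _ => by ring
    · have h4 := hdm' (fun j => (c (e k) j : ℝ) + l' j) x
      have h5 := h3 x hx
      rw [← h4] at h5
      refine le_of_eq_of_le ?_ h5
      exact Finset.sum_congr rfl fun i _ => by ring
  · have hk0 := he0 k
    have hk := (Finset.mem_filter.1 hk0).2
    have hpos : ∀ j ∈ Out, 0 ≤ y (e0 k) j := by
      intro j hj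
      have h4 : (0 : ℝ) ≤ c0 (e0 k) j := by exact_mod_cast hk j (Finset.mem_filter.1 hj).2
      exact add_nonneg h4 (hl0 _ j)
    have hdl : ∀ i, ((c0 (e0 k) (ι i) : ℤ) : ℝ) + (l (e0 k) (ι i) +
        ∑ j ∈ Out, y (e0 k) j * lam j i) = d (e0 k) i := by
      intro i
      rw [hdd, hy]
      ring
    refine ⟨fun i => l (e0 k) (ι i) + ∑ j ∈ Out, y (e0 k) j * lam j i, fun i => ?_, ?_,
      fun x => ?_, ?_⟩
    · exact add_nonneg (hl0 _ _) (Finset.sum_nonneg fun j hj => mul_nonneg (hpos j hj) (hlam0 j i))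
    · simp only [hdl]
      have h4 : ∑ i, d (e0 k) i = ∑ j, y (e0 k) j := hd1 (y (e0 k))
      rw [h4]
      exact hl1 (e0 k)
    · simp only [hdl]
      have h4 : ∑ i, d (e0 k) i * (m' i x : ℝ) = ∑ j, y (e0 k) j * (m j x : ℝ) :=
        hdm' (y (e0 k)) x
      rw [h4]
      exact hl2 (e0 k) x
    · simp only [hdl]
      have h1 : ∑ i, d (e0 k) i * ((θ1 i - Λ * ((∑ x, m' i x : ℕ) : ℤ) : ℤ) : ℝ) =
          ∑ i, d (e0 k) i * (θ1 i : ℝ) - Λ * ∑ i, d (e0 k) i * ((∑ x, m' i x : ℕ) : ℝ) := by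
        rw [Finset.mul_sum, ← Finset.sum_sub_distrib]
        refine Finset.sum_congr rfl fun i _ => ?_
        push_cast
        ring
      rw [h1]
      rcases hl3 (e0 k) with ⟨h2, h3⟩ | h2
      · have h4 : ∑ i, d (e0 k) i * ((∑ x, m' i x : ℕ) : ℝ) = 0 := by
          have h5 : ∑ i, d (e0 k) i * ((∑ x, m' i x : ℕ) : ℝ) =
              ∑ x, ∑ i, d (e0 k) i * (m' i x : ℝ) := by
            rw [Finset.sum_comm]
            refine Finset.sum_congr rfl fun i _ => ?_
            push_cast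
            rw [Finset.mul_sum]
          rw [h5]
          refine Finset.sum_eq_zero fun x _ => ?_
          have h6 : ∑ i, d (e0 k) i * (m' i x : ℝ) = ∑ j, y (e0 k) j * (m j x : ℝ) :=
            hdm' (y (e0 k)) x
          rw [h6]
          exact h3 x
        rw [h4, mul_zero, sub_zero]
        exact hθ1 (e0 k) ⟨hk0, h2⟩
      · have h3 := hδ (e0 k) h2
        have h4 : |∑ i, d (e0 k) i * (θ1 i : ℝ)| /
            |∑ i, d (e0 k) i * ((∑ x, m' i x : ℕ) : ℝ)| < Λ :=
          lt_of_le_of_lt (Finset.single_le_sum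
            (f := fun k => |∑ i, d k i * (θ1 i : ℝ)| /
              |∑ i, d k i * ((∑ x, m' i x : ℕ) : ℝ)|)
            (fun k _ => div_nonneg (abs_nonneg _) (abs_nonneg _)) (Finset.mem_univ (e0 k))) hΛ
        rw [abs_of_neg h3, div_lt_iff₀ (by linarith)] at h4
        have h5 := neg_abs_le (∑ i, d (e0 k) i * (θ1 i : ℝ))
        linarith
  · have h1 : (C κ⁻¹ : MvPolynomial (Fin R') ℂ) * C κ = 1 := by
      rw [← C_mul, inv_mul_cancel₀ hκ0, C_1]
    have h2 := congrArg (fun z => C κ⁻¹ * z) hrel'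
    beta_reduce at h2
    have h3 : (C κ⁻¹ : MvPolynomial (Fin R') ℂ) *
        (Polynomial.aeval (∑ i, X i : MvPolynomial (Fin R') ℂ) p * (C κ * ∏ i, dm M i)) =
        Polynomial.aeval (∑ i, X i : MvPolynomial (Fin R') ℂ) p * ∏ i, dm M i := by
      calc _ = (C κ⁻¹ * C κ) *
            (Polynomial.aeval (∑ i, X i : MvPolynomial (Fin R') ℂ) p * ∏ i, dm M i) := by ring
        _ = _ := by rw [h1, one_mul]
    rw [h3] at h2
    rw [h2, mul_add, Finset.mul_sum, Finset.mul_sum]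
    congr 1
    · exact Finset.sum_congr rfl fun k _ => by ring
    · exact Finset.sum_congr rfl fun k _ => by ring

end Pool.Agent.TH216.ND
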